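import Mathlib
import Pool.Agent.MP_291af2_co.Defs
import Pool.Agent.MP_291af2_co.Mg.Concrete

set_option autoImplicit false

open Pool.Agent.MP_291af2_co

namespace Pool.Agent.Results.MP_291af2_co.Rigid

/-- For every `k ≥ 1` the only bijection of the vertex set of the tree of standard Young tableaux
with at most `k` rows which preserves adjacency is the identity. -/
theorem result (k : ℕ) (hk : 1 ≤ k) (φ : SYT k ≃ SYT k)
    (hφ : ∀ T T' : SYT k, (sytTree k).Adj T T' → (sytTree k).Adj (φ T) (φ T')) :
    φ = Equiv.refl (SYT k) :=
  Equiv.ext fun T => rigid hk φ hφ T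

end Pool.Agent.Results.MP_291af2_co.Rigid
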